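import Pool.Agent.helper89.ArchZeta.Wirt

open MeasureTheory Complex Set Filter Topology
open scoped ContDiff ComplexConjugate

namespace Pool.Agent.helper89.ArchZeta

/-- coordinate `x` -/
noncomputable def lx : E3 →L[ℂ] ℂ := ContinuousLinearMap.proj 0
/-- coordinate `y` -/
noncomputable def ly : E3 →L[ℂ] ℂ := ContinuousLinearMap.proj 1
/-- coordinate `z` -/
noncomputable def lz : E3 →L[ℂ] ℂ := ContinuousLinearMap.proj 2
/-- the form `x - y` -/
noncomputable def lxy : E3 →L[ℂ] ℂ := lx - ly
/-- the form `x - z` -/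
noncomputable def lxz : E3 →L[ℂ] ℂ := lx - lz

/-- basis vectors -/
noncomputable def ex : E3 := ![1, 0, 0]
/-- basis vectors -/
noncomputable def ey : E3 := ![0, 1, 0]
/-- basis vectors -/
noncomputable def ez : E3 := ![0, 0, 1]

@[simp] theorem lx_ex : lx ex = 1 := by simp [lx, ex]
@[simp] theorem lx_ey : lx ey = 0 := by simp [lx, ey]
@[simp] theorem lx_ez : lx ez = 0 := by simp [lx, ez]
@[simp] theorem ly_ex : ly ex = 0 := by simp [ly, ex]
@[simp] theorem ly_ey : ly ey = 1 := by simp [ly, ey]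
@[simp] theorem ly_ez : ly ez = 0 := by simp [ly, ez]
@[simp] theorem lz_ex : lz ex = 0 := by simp [lz, ex]
@[simp] theorem lz_ey : lz ey = 0 := by simp [lz, ey]
@[simp] theorem lz_ez : lz ez = 1 := by simp [lz, ez]
theorem lxy_apply (v : E3) : lxy v = lx v - ly v := by simp [lxy]
theorem lxz_apply (v : E3) : lxz v = lx v - lz v := by simp [lxz]

/-- `F(s)` for real `s`. -/
noncomputable def W (t : ℝ) (p : E3) : ℂ :=
  N lx t p * N lxz t p * N lz t p * N ly (2 * t) p * N lxy (4 * t) p

/-- `V`-integrand: `F * (x-y)/x`. -/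
noncomputable def W0 (t : ℝ) (p : E3) : ℂ :=
  M lx t p * N lxz t p * N lz t p * N ly (2 * t) p * N lxy (4 * t) p * lxy p

/-- `F * (x-y) / (x - z)`. -/
noncomputable def W5 (t : ℝ) (p : E3) : ℂ :=
  N lx t p * M lxz t p * N lz t p * N ly (2 * t) p * N lxy (4 * t) p * lxy p

theorem contDiff_W0 {t : ℝ} (ht : 2 ≤ t) : ContDiff ℝ 1 (W0 t) := by
  unfold W0
  have hl : ContDiff ℝ 1 (fun z : E3 => lxy z) := (lxy.restrictScalars ℝ).contDiff
  exact (((((contDiff_M lx ht).mul (contDiff_N lxz (by linarith))).mul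
    (contDiff_N lz (by linarith))).mul (contDiff_N ly (by linarith))).mul
    (contDiff_N lxy (by linarith))).mul hl

theorem contDiff_lin (l : E3 →L[ℂ] ℂ) : ContDiff ℝ 1 (fun z : E3 => l z) :=
  (l.restrictScalars ℝ).contDiff

theorem wd_W0 {t : ℝ} (ht : 2 ≤ t) (p v : E3) :
    DifferentiableAt ℝ (W0 t) p ∧ wd v (W0 t) p =
      ((t - 1) * lx v * M2 lx t p) * N lxz t p * N lz t p * N ly (2 * t) p * N lxy (4 * t) p
          * lxy p
      + M lx t p * (t * lxz v * M lxz t p) * N lz t p * N ly (2 * t) p * N lxy (4 * t) p * lxy p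
      + M lx t p * N lxz t p * (t * lz v * M lz t p) * N ly (2 * t) p * N lxy (4 * t) p * lxy p
      + M lx t p * N lxz t p * N lz t p * (2 * t * ly v * M ly (2 * t) p) * N lxy (4 * t) p
          * lxy p
      + M lx t p * N lxz t p * N lz t p * N ly (2 * t) p * (4 * t * lxy v * M lxy (4 * t) p)
          * lxy p
      + M lx t p * N lxz t p * N lz t p * N ly (2 * t) p * N lxy (4 * t) p * lxy v := by
  have h := (((((hasW_M lx ht p).mul (hasW_N lxz (p := t) (by linarith) p)).mul
    (hasW_N lz (p := t) (by linarith) p)).mul (hasW_N ly (p := 2 * t) (by linarith) p)).mul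
    (hasW_N lxy (p := 4 * t) (by linarith) p)).mul (hasW_clm lxy p)
  refine ⟨h.1, ?_⟩
  have h2 := h.2 v
  change wd v (W0 t) p = _ at h2
  rw [h2]
  push_cast
  ring

theorem wd_mul_lin {l : E3 →L[ℂ] ℂ} {f : E3 → ℂ} {p : E3} (hf : DifferentiableAt ℝ f p) (v : E3) :
    wd v (fun p => l p * f p) p = l v * f p + l p * wd v f p :=
  ((hasW_clm l p).mul (⟨hf, fun _ => rfl⟩ : HasW f (fun v => wd v f p) p)).2 v

theorem wd_id1 {t : ℝ} (ht : 2 ≤ t) (p : E3) :
    wd ey (fun p => ly p * W0 t p) p =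
      (2 + 6 * t) * W0 t p - (1 + 4 * t) * W t p := by
  rw [wd_mul_lin (wd_W0 ht p ey).1, (wd_W0 ht p ey).2]
  have r1 := mul_M lx (p := t) (by linarith) p
  have r2 := mul_M ly (p := 2 * t) (by linarith) p
  have r3 := mul_M lxy (p := 4 * t) (by linarith) p
  simp only [lxy_apply, lxz_apply, lx_ey, ly_ey, lz_ey, W0, W] at r1 r2 r3 ⊢
  generalize M lx t p = a at *
  generalize N lx t p = a1 at *
  generalize M2 lx t p = a2 at *
  generalize N lxz t p = b at *
  generalize M lxz t p = b1 at *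
  generalize N lz t p = c at *
  generalize M lz t p = c1 at *
  generalize N ly (2 * t) p = d at *
  generalize M ly (2 * t) p = d1 at *
  generalize N lxy (4 * t) p = e at *
  generalize M lxy (4 * t) p = e1 at *
  generalize lx p = x at *
  generalize ly p = y at *
  generalize lz p = z at *
  subst r1
  subst r2
  subst r3
  ring

theorem wd_id2 {t : ℝ} (ht : 2 ≤ t) (p : E3) :
    wd ex (fun p => lx p * W0 t p) p + wd ey (fun p => ly p * W0 t p) p
      + wd ez (fun p => lz p * W0 t p) p = (3 + 9 * t) * W0 t p := by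
  rw [wd_mul_lin (wd_W0 ht p ex).1, (wd_W0 ht p ex).2, wd_mul_lin (wd_W0 ht p ey).1,
    (wd_W0 ht p ey).2, wd_mul_lin (wd_W0 ht p ez).1, (wd_W0 ht p ez).2]
  have r0 := mul_M2 lx (p := t) (by linarith) p
  have r1 := mul_M lxz (p := t) (by linarith) p
  have r2 := mul_M ly (p := 2 * t) (by linarith) p
  have r3 := mul_M lxy (p := 4 * t) (by linarith) p
  have r4 := mul_M lz (p := t) (by linarith) p
  simp only [lxy_apply, lxz_apply, lx_ey, ly_ey, lz_ey, lx_ex, ly_ex, lz_ex,
    lx_ez, ly_ez, lz_ez, W0, W] at r0 r1 r2 r3 r4 ⊢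
  generalize M lx t p = a at *
  generalize N lx t p = a1 at *
  generalize M2 lx t p = a2 at *
  generalize N lxz t p = b at *
  generalize M lxz t p = b1 at *
  generalize N lz t p = c at *
  generalize M lz t p = c1 at *
  generalize N ly (2 * t) p = d at *
  generalize M ly (2 * t) p = d1 at *
  generalize N lxy (4 * t) p = e at *
  generalize M lxy (4 * t) p = e1 at *
  generalize lx p = x at *
  generalize ly p = y at *
  generalize lz p = z at *
  subst r0
  subst r1
  subst r2
  subst r3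
  subst r4
  ring

theorem wd_id3 {t : ℝ} (ht : 2 ≤ t) (p : E3) :
    wd ex (fun p => lx p * W0 t p) p + wd ey (fun p => ly p * W0 t p) p
      = (2 + 7 * t) * W0 t p + t * W5 t p := by
  rw [wd_mul_lin (wd_W0 ht p ex).1, (wd_W0 ht p ex).2, wd_mul_lin (wd_W0 ht p ey).1,
    (wd_W0 ht p ey).2]
  have r0 := mul_M2 lx (p := t) (by linarith) p
  have r0' := mul_M lx (p := t) (by linarith) p
  have r1 := mul_M lxz (p := t) (by linarith) p
  have r2 := mul_M ly (p := 2 * t) (by linarith) p
  have r3 := mul_M lxy (p := 4 * t) (by linarith) p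
  have r4 := mul_M lz (p := t) (by linarith) p
  simp only [lxy_apply, lxz_apply, lx_ey, ly_ey, lz_ey, lx_ex, ly_ex, lz_ex,
    lx_ez, ly_ez, lz_ez, W0, W, W5] at r0 r0' r1 r2 r3 r4 ⊢
  generalize M2 lx t p = a2 at *
  generalize M lx t p = a at *
  generalize N lx t p = a1 at *
  generalize M lxz t p = b1 at *
  generalize N lxz t p = b at *
  generalize N lz t p = c at *
  generalize M lz t p = c1 at *
  generalize N ly (2 * t) p = d at *
  generalize M ly (2 * t) p = d1 at *
  generalize N lxy (4 * t) p = e at *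
  generalize M lxy (4 * t) p = e1 at *
  generalize lx p = x at *
  generalize ly p = y at *
  generalize lz p = z at *
  subst r0'
  subst r0
  subst r1
  subst r2
  subst r3
  subst r4
  ring

end Pool.Agent.helper89.ArchZeta
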