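import Pool.Agent.helper89.ArchZeta.Integ
import Pool.Agent.helper89.ArchZeta.Ident

open MeasureTheory Complex Set Filter Topology
open scoped ContDiff ComplexConjugate

namespace Pool.Agent.helper89.ArchZeta

theorem amgm2 {u v a b : ℝ} (hu : 0 < u) (hv : 0 < v) (ha : 0 ≤ a) (hb : 0 ≤ b) :
    u ^ (-a) * v ^ (-b) ≤ u ^ (-(a + b)) + v ^ (-(a + b)) := by
  rcases le_total u v with h | h
  · have h1 : v ^ (-b) ≤ u ^ (-b) := Real.rpow_le_rpow_of_nonpos hu h (by linarith)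
    have h2 : u ^ (-a) * v ^ (-b) ≤ u ^ (-a) * u ^ (-b) :=
      mul_le_mul_of_nonneg_left h1 (by positivity)
    rw [← Real.rpow_add hu] at h2
    have h3 : 0 < v ^ (-(a + b)) := by positivity
    have h4 : -a + -b = -(a + b) := by ring
    rw [h4] at h2
    linarith
  · have h1 : u ^ (-a) ≤ v ^ (-a) := Real.rpow_le_rpow_of_nonpos hv h (by linarith)
    have h2 : u ^ (-a) * v ^ (-b) ≤ v ^ (-a) * v ^ (-b) :=
      mul_le_mul_of_nonneg_right h1 (by positivity)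
    rw [← Real.rpow_add hv] at h2
    have h3 : 0 < u ^ (-(a + b)) := by positivity
    have h4 : -a + -b = -(a + b) := by ring
    rw [h4] at h2
    linarith

theorem amgm3 {u v w a b c : ℝ} (hu : 0 < u) (hv : 0 < v) (hw : 0 < w)
    (ha : 0 ≤ a) (hb : 0 ≤ b) (hc : 0 ≤ c) :
    u ^ (-a) * v ^ (-b) * w ^ (-c) ≤
      u ^ (-(a + b + c)) + v ^ (-(a + b + c)) + w ^ (-(a + b + c)) := by
  have h1 := amgm2 hu hv ha hb
  have h2 := amgm2 hu hw (add_nonneg ha hb) hc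
  have h3 := amgm2 hv hw (add_nonneg ha hb) hc
  -- case distinction on the smaller of `u` and `v`
  rcases le_total u v with h | h
  · have h4 : u ^ (-a) * v ^ (-b) ≤ u ^ (-(a + b)) := by
      have h5 : v ^ (-b) ≤ u ^ (-b) := Real.rpow_le_rpow_of_nonpos hu h (by linarith)
      have h6 : u ^ (-a) * v ^ (-b) ≤ u ^ (-a) * u ^ (-b) :=
        mul_le_mul_of_nonneg_left h5 (by positivity)
      rw [← Real.rpow_add hu] at h6
      have h7 : -a + -b = -(a + b) := by ring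
      rwa [h7] at h6
    have h5 : u ^ (-a) * v ^ (-b) * w ^ (-c) ≤ u ^ (-(a + b)) * w ^ (-c) :=
      mul_le_mul_of_nonneg_right h4 (by positivity)
    have h6 : 0 < v ^ (-(a + b + c)) := by positivity
    linarith
  · have h4 : u ^ (-a) * v ^ (-b) ≤ v ^ (-(a + b)) := by
      have h5 : u ^ (-a) ≤ v ^ (-a) := Real.rpow_le_rpow_of_nonpos hv h (by linarith)
      have h6 : u ^ (-a) * v ^ (-b) ≤ v ^ (-a) * v ^ (-b) :=
        mul_le_mul_of_nonneg_right h5 (by positivity)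
      rw [← Real.rpow_add hv] at h6
      have h7 : -a + -b = -(a + b) := by ring
      rwa [h7] at h6
    have h5 : u ^ (-a) * v ^ (-b) * w ^ (-c) ≤ v ^ (-(a + b)) * w ^ (-c) :=
      mul_le_mul_of_nonneg_right h4 (by positivity)
    have h6 : 0 < u ^ (-(a + b + c)) := by positivity
    linarith

/-- the dominating function in terms of the five norms -/
noncomputable def DD (X Y W S Z : ℝ) : ℝ :=
  ((X * Y) ^ (-(39/20 : ℝ)) + (X * W) ^ (-(39/20 : ℝ)) + (Y * W) ^ (-(39/20 : ℝ))) *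
    (S ^ (-(17/10 : ℝ)) + Z ^ (-(17/10 : ℝ)))

theorem zpart_bound {S Z R : ℝ} (hS : 0 < S) (hZ : 0 < Z) (hSR : S < R) (hZR : Z < R)
    (hR : 1 ≤ R) :
    S ^ (-(7/10 : ℝ)) * Z ^ (-(7/10 : ℝ)) ≤ R * (S ^ (-(17/10 : ℝ)) + Z ^ (-(17/10 : ℝ))) := by
  have h := amgm2 hS hZ (a := 7/10) (b := 7/10) (by norm_num) (by norm_num)
  have h1 : ∀ T : ℝ, 0 < T → T < R → T ^ (-(7/10 + 7/10 : ℝ)) ≤ R * T ^ (-(17/10 : ℝ)) := by
    intro T hT hTR
    have e : T ^ (-(7/10 + 7/10 : ℝ)) = T ^ (3/10 : ℝ) * T ^ (-(17/10 : ℝ)) := by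
      rw [← Real.rpow_add hT]; norm_num
    rw [e]
    apply mul_le_mul_of_nonneg_right _ (by positivity)
    calc T ^ (3/10 : ℝ) ≤ R ^ (3/10 : ℝ) := Real.rpow_le_rpow hT.le hTR.le (by norm_num)
      _ ≤ R ^ (1 : ℝ) := Real.rpow_le_rpow_of_exponent_le hR (by norm_num)
      _ = R := Real.rpow_one R
  have h2 := h1 S hS hSR
  have h3 := h1 Z hZ hZR
  linarith

theorem zpart_bound5 {S Z R : ℝ} (hS : 0 < S) (hZ : 0 < Z) (hZR : Z < R)
    (hR : 1 ≤ R) :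
    S ^ (-(17/10 : ℝ)) * Z ^ (3/10 : ℝ) ≤ R * (S ^ (-(17/10 : ℝ)) + Z ^ (-(17/10 : ℝ))) := by
  have h1 : Z ^ (3/10 : ℝ) ≤ R := by
    calc Z ^ (3/10 : ℝ) ≤ R ^ (3/10 : ℝ) := Real.rpow_le_rpow hZ.le hZR.le (by norm_num)
      _ ≤ R ^ (1 : ℝ) := Real.rpow_le_rpow_of_exponent_le hR (by norm_num)
      _ = R := Real.rpow_one R
  have h2 : S ^ (-(17/10 : ℝ)) * Z ^ (3/10 : ℝ) ≤ S ^ (-(17/10 : ℝ)) * R :=
    mul_le_mul_of_nonneg_left h1 (by positivity)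
  have h3 : 0 ≤ R * Z ^ (-(17/10 : ℝ)) := by positivity
  linarith

theorem exists_exp {X : ℝ} (hX : 0 < X) : ∃ x, Real.exp x = X := ⟨Real.log X, Real.exp_log hX⟩

theorem type1_eq {X Y W S Z : ℝ} (hX : 0 < X) (hY : 0 < Y) (hW : 0 < W) (hS : 0 < S)
    (hZ : 0 < Z) :
    (X * S * Z * Y ^ 2 * W ^ 4) ^ (-(7/10) : ℝ) * (W * Y / X) =
    ((X * Y) ^ (-(15/100) : ℝ) * (X * W) ^ (-(155/100) : ℝ) * (Y * W) ^ (-(25/100) : ℝ)) *
      (S ^ (-(7/10) : ℝ) * Z ^ (-(7/10) : ℝ)) := by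
  obtain ⟨x, rfl⟩ := exists_exp hX
  obtain ⟨y, rfl⟩ := exists_exp hY
  obtain ⟨w, rfl⟩ := exists_exp hW
  obtain ⟨s, rfl⟩ := exists_exp hS
  obtain ⟨z, rfl⟩ := exists_exp hZ
  simp only [← Real.exp_add, ← Real.exp_nat_mul, ← Real.exp_mul, ← Real.exp_sub]
  congr 1
  push_cast
  ring

theorem type2_eq {X Y W S Z : ℝ} (hX : 0 < X) (hY : 0 < Y) (hW : 0 < W) (hS : 0 < S)
    (hZ : 0 < Z) :
    (X * S * Z * Y ^ 2 * W ^ 4) ^ (-(7/10) : ℝ) * W =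
    ((X * Y) ^ (-(15/100) : ℝ) * (X * W) ^ (-(55/100) : ℝ) * (Y * W) ^ (-(125/100) : ℝ)) *
      (S ^ (-(7/10) : ℝ) * Z ^ (-(7/10) : ℝ)) := by
  obtain ⟨x, rfl⟩ := exists_exp hX
  obtain ⟨y, rfl⟩ := exists_exp hY
  obtain ⟨w, rfl⟩ := exists_exp hW
  obtain ⟨s, rfl⟩ := exists_exp hS
  obtain ⟨z, rfl⟩ := exists_exp hZ
  simp only [← Real.exp_add, ← Real.exp_nat_mul, ← Real.exp_mul, ← Real.exp_sub]
  congr 1
  push_cast
  ring

theorem type5_eq {X Y W S Z : ℝ} (hX : 0 < X) (hY : 0 < Y) (hW : 0 < W) (hS : 0 < S)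
    (hZ : 0 < Z) :
    (X * S * Z * Y ^ 2 * W ^ 4) ^ (-(7/10) : ℝ) * (W * Z / S) =
    ((X * Y) ^ (-(15/100) : ℝ) * (X * W) ^ (-(55/100) : ℝ) * (Y * W) ^ (-(125/100) : ℝ)) *
      (S ^ (-(17/10) : ℝ) * Z ^ (3/10 : ℝ)) := by
  obtain ⟨x, rfl⟩ := exists_exp hX
  obtain ⟨y, rfl⟩ := exists_exp hY
  obtain ⟨w, rfl⟩ := exists_exp hW
  obtain ⟨s, rfl⟩ := exists_exp hS
  obtain ⟨z, rfl⟩ := exists_exp hZ
  simp only [← Real.exp_add, ← Real.exp_nat_mul, ← Real.exp_mul, ← Real.exp_sub]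
  congr 1
  push_cast
  ring

theorem type1_bound {X Y W S Z R : ℝ} (hX : 0 < X) (hY : 0 < Y) (hW : 0 < W) (hS : 0 < S)
    (hZ : 0 < Z) (hSR : S < R) (hZR : Z < R) (hR : 1 ≤ R) :
    (X * S * Z * Y ^ 2 * W ^ 4) ^ (-(7/10) : ℝ) * (W * Y / X) ≤ R * DD X Y W S Z := by
  rw [type1_eq hX hY hW hS hZ]
  have h1 := amgm3 (mul_pos hX hY) (mul_pos hX hW) (mul_pos hY hW) (a := 15/100) (b := 155/100)
    (c := 25/100) (by norm_num) (by norm_num) (by norm_num)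
  have e : (15/100 + 155/100 + 25/100 : ℝ) = 39/20 := by norm_num
  rw [e] at h1
  have h2 := zpart_bound hS hZ hSR hZR hR
  calc _ ≤ _ := mul_le_mul h1 h2 (by positivity) (by positivity)
    _ = _ := by unfold DD; ring

theorem type2_bound {X Y W S Z R : ℝ} (hX : 0 < X) (hY : 0 < Y) (hW : 0 < W) (hS : 0 < S)
    (hZ : 0 < Z) (hSR : S < R) (hZR : Z < R) (hR : 1 ≤ R) :
    (X * S * Z * Y ^ 2 * W ^ 4) ^ (-(7/10) : ℝ) * W ≤ R * DD X Y W S Z := by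
  rw [type2_eq hX hY hW hS hZ]
  have h1 := amgm3 (mul_pos hX hY) (mul_pos hX hW) (mul_pos hY hW) (a := 15/100) (b := 55/100)
    (c := 125/100) (by norm_num) (by norm_num) (by norm_num)
  have e : (15/100 + 55/100 + 125/100 : ℝ) = 39/20 := by norm_num
  rw [e] at h1
  have h2 := zpart_bound hS hZ hSR hZR hR
  calc _ ≤ _ := mul_le_mul h1 h2 (by positivity) (by positivity)
    _ = _ := by unfold DD; ring

theorem type5_bound {X Y W S Z R : ℝ} (hX : 0 < X) (hY : 0 < Y) (hW : 0 < W) (hS : 0 < S)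
    (hZ : 0 < Z) (hZR : Z < R) (hR : 1 ≤ R) :
    (X * S * Z * Y ^ 2 * W ^ 4) ^ (-(7/10) : ℝ) * (W * Z / S) ≤ R * DD X Y W S Z := by
  rw [type5_eq hX hY hW hS hZ]
  have h1 := amgm3 (mul_pos hX hY) (mul_pos hX hW) (mul_pos hY hW) (a := 15/100) (b := 55/100)
    (c := 125/100) (by norm_num) (by norm_num) (by norm_num)
  have e : (15/100 + 55/100 + 125/100 : ℝ) = 39/20 := by norm_num
  rw [e] at h1
  have h2 := zpart_bound5 hS hZ hZR hR
  calc _ ≤ _ := mul_le_mul h1 h2 (by positivity) (by positivity)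
    _ = _ := by unfold DD; ring

end Pool.Agent.helper89.ArchZeta
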