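import Pool.Agent.helper89.ArchZeta.Wirt

open MeasureTheory Complex Set Filter Topology
open scoped ContDiff ComplexConjugate

namespace Pool.Agent.helper89.ArchZeta

/-- truncated negative power of the norm -/
noncomputable def hh (p R : ℝ) (w : ℂ) : ℝ := (Metric.ball (0 : ℂ) R).indicator (fun w => ‖w‖ ^ (-p)) w

theorem hh_nonneg (p R : ℝ) (w : ℂ) : 0 ≤ hh p R w :=
  indicator_nonneg (fun _ _ => by positivity) _

theorem hh_of_lt {p R : ℝ} {w : ℂ} (h : ‖w‖ < R) : hh p R w = ‖w‖ ^ (-p) := by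
  unfold hh
  rw [indicator_of_mem]
  simpa using h

theorem integrable_hh {p R : ℝ} (hp : p < 2) (hR : 0 < R) : Integrable (hh p R) := by
  unfold hh
  rw [integrable_indicator_iff Metric.isOpen_ball.measurableSet]
  rw [MeasureTheory.integrableOn_fun_norm_addHaar (μ := (volume : Measure ℂ))
    (f := fun t : ℝ => t ^ (-p))]
  rw [Complex.finrank_real_complex]
  have h1 : IntegrableOn (fun x : ℝ ↦ x ^ (1 - p)) (Ioo (0 : ℝ) R) :=
    (intervalIntegral.integrableOn_Ioo_rpow_iff hR).2 (by linarith)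
  refine h1.congr_fun ?_ measurableSet_Ioo
  intro x hx
  simp only [Nat.add_one_sub_one, pow_one, smul_eq_mul]
  rw [sub_eq_add_neg, Real.rpow_add hx.1, Real.rpow_one]

theorem integrable_prod_hh {p : Fin 3 → ℝ} {R : ℝ} (hp : ∀ i, p i < 2) (hR : 0 < R) :
    Integrable (fun z : E3 => ∏ i, hh (p i) R (z i)) :=
  Integrable.fintype_prod (f := fun i => hh (p i) R) (fun i => integrable_hh (hp i) hR)

theorem integrable_prod_lin (L : Fin 3 → (E3 →L[ℂ] ℂ))
    (hL : ∀ z : E3, (∀ i, L i z = 0) → z = 0)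
    {p : Fin 3 → ℝ} {R : ℝ} (hp : ∀ i, p i < 2) (hR : 0 < R) :
    Integrable (fun z : E3 => ∏ i, hh (p i) R (L i z)) := by
  set T : E3 →ₗ[ℝ] E3 := (LinearMap.pi (fun i => ((L i) : E3 →ₗ[ℂ] ℂ))).restrictScalars ℝ with hT
  have hTapp : ∀ z i, T z i = L i z := by intro z i; simp [hT]
  have hinj : Function.Injective T := by
    rw [← LinearMap.ker_eq_bot, LinearMap.ker_eq_bot']
    intro z hz
    apply hL
    intro i
    rw [← hTapp z i, hz]; rfl
  have hdet : LinearMap.det T ≠ 0 := by
    have h1 := LinearEquiv.isUnit_det' (LinearEquiv.ofInjectiveEndo T hinj)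
    have h2 : ((LinearEquiv.ofInjectiveEndo T hinj) : E3 →ₗ[ℝ] E3) = T := by
      ext x; simp
    rw [h2] at h1
    exact h1.ne_zero
  have hmap := Measure.map_linearMap_addHaar_eq_smul_addHaar (volume : Measure E3) hdet
  have hG := integrable_prod_hh hp hR
  have hG' : Integrable (fun z : E3 => ∏ i, hh (p i) R (z i)) (Measure.map T volume) := by
    rw [hmap]
    exact hG.smul_measure ENNReal.ofReal_ne_top
  have hTm : Measurable T := T.continuous_of_finiteDimensional.measurable
  have := hG'.comp_measurable hTm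
  simpa [Function.comp_def, hTapp] using this

end Pool.Agent.helper89.ArchZeta
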