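import Mathlib

open MeasureTheory Complex Set Filter Topology
open scoped ContDiff ComplexConjugate

namespace Pool.Agent.helper89.ArchZeta

theorem log_rpow_bound {t R u ε : ℝ} (ht : 0 < t) (htR : t ≤ R) (hR : 1 ≤ R) (hε : 0 < ε)
    (hu1 : 2 * ε ≤ u) (hu2 : u ≤ 6 * ε) :
    |Real.log t| * t ^ u ≤ 1 / (2 * ε) + R * R ^ (6 * ε) := by
  have hR0 : 0 < R * R ^ (6 * ε) := by positivity
  have he0 : 0 < 1 / (2 * ε) := by positivity
  rcases le_or_gt t 1 with h1 | h1
  · have h2 := Real.abs_log_mul_self_rpow_lt t (2 * ε) ht h1 (by linarith)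
    rw [abs_mul, abs_of_pos (Real.rpow_pos_of_pos ht _)] at h2
    have h3 : t ^ u ≤ t ^ (2 * ε) := Real.rpow_le_rpow_of_exponent_ge ht h1 hu1
    have h4 : |Real.log t| * t ^ u ≤ |Real.log t| * t ^ (2 * ε) :=
      mul_le_mul_of_nonneg_left h3 (abs_nonneg _)
    linarith
  · have h2 : |Real.log t| ≤ R := by
      rw [abs_of_pos (Real.log_pos h1)]
      exact (Real.log_le_self ht.le).trans htR
    have h3 : t ^ u ≤ R ^ (6 * ε) :=
      (Real.rpow_le_rpow ht.le htR (by linarith)).trans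
        (Real.rpow_le_rpow_of_exponent_le hR hu2)
    have h4 : |Real.log t| * t ^ u ≤ R * R ^ (6 * ε) :=
      mul_le_mul h2 h3 (by positivity) (by positivity)
    linarith

theorem rpow_bound {t R u v : ℝ} (ht : 0 < t) (htR : t ≤ R) (hR : 1 ≤ R) (hu : 0 ≤ u)
    (hv : u ≤ v) : t ^ u ≤ R ^ v :=
  (Real.rpow_le_rpow ht.le htR hu).trans (Real.rpow_le_rpow_of_exponent_le hR hv)

/-- Analyticity in the exponent of an integral of `|f|^(2s) H`. -/
theorem analytic_param {X : Type*} [MeasurableSpace X] {μ : Measure X}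
    {f H : X → ℂ} {σ R : ℝ} (hR : 1 ≤ R) (hf : Measurable f) (hH : AEStronglyMeasurable H μ)
    (hint : Integrable (fun p => ‖f p‖ ^ (2 * σ) * ‖H p‖) μ)
    (hb : ∀ p, H p ≠ 0 → ‖f p‖ ≤ R) (h0 : ∀ᵐ p ∂μ, f p ≠ 0) :
    AnalyticOnNhd ℂ (fun s : ℂ => ∫ p, ((‖f p‖ : ℝ) : ℂ) ^ (2 * s) * H p ∂μ)
      {s | σ < s.re} := by
  apply DifferentiableOn.analyticOnNhd _ (isOpen_lt continuous_const Complex.continuous_re)
  intro s₀ hs₀
  simp only [Set.mem_ofPred_eq] at hs₀
  apply DifferentiableAt.differentiableWithinAt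
  set ε : ℝ := (s₀.re - σ) / 2 with hε
  have hε0 : 0 < ε := by rw [hε]; linarith
  set C : ℝ := 2 * (1 / (2 * ε) + R * R ^ (6 * ε)) with hC
  have hmeas : ∀ s : ℂ, AEStronglyMeasurable (fun p => ((‖f p‖ : ℝ) : ℂ) ^ (2 * s) * H p) μ := by
    intro s
    refine AEStronglyMeasurable.mul ?_ hH
    exact ((Complex.measurable_ofReal.comp hf.norm).pow_const _).aestronglyMeasurable
  have key := hasDerivAt_integral_of_dominated_loc_of_deriv_le (μ := μ) (𝕜 := ℂ)
    (F := fun s p => ((‖f p‖ : ℝ) : ℂ) ^ (2 * s) * H p) (x₀ := s₀)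
    (F' := fun s p => (((‖f p‖ : ℝ) : ℂ) ^ (2 * s) * Complex.log ((‖f p‖ : ℝ) : ℂ) * 2) * H p)
    (bound := fun p => C * (‖f p‖ ^ (2 * σ) * ‖H p‖))
    (s := Metric.ball s₀ ε) (Metric.ball_mem_nhds s₀ hε0) (Eventually.of_forall hmeas)
    ?_ ?_ ?_ (hint.const_mul _) ?_
  · exact key.2.differentiableAt
  · refine (hint.const_mul (R ^ (4 * ε))).mono (hmeas s₀) ?_
    filter_upwards [h0] with p hp
    have ht : 0 < ‖f p‖ := norm_pos_iff.2 hp
    rw [norm_mul, Complex.norm_cpow_eq_rpow_re_of_pos ht]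
    rw [Real.norm_of_nonneg (by positivity)]
    by_cases hHp : H p = 0
    · simp [hHp]
    · have e1 : (2 * s₀).re = 2 * σ + 4 * ε := by simp [hε]; ring
      rw [e1, Real.rpow_add ht]
      have := rpow_bound ht (hb p hHp) hR (u := 4 * ε) (by linarith) le_rfl
      calc ‖f p‖ ^ (2 * σ) * ‖f p‖ ^ (4 * ε) * ‖H p‖
          = ‖f p‖ ^ (4 * ε) * (‖f p‖ ^ (2 * σ) * ‖H p‖) := by ring
        _ ≤ R ^ (4 * ε) * (‖f p‖ ^ (2 * σ) * ‖H p‖) := by
            apply mul_le_mul_of_nonneg_right this (by positivity)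
  · refine AEStronglyMeasurable.mul ?_ hH
    have m1 : Measurable (fun p => ((‖f p‖ : ℝ) : ℂ)) := Complex.measurable_ofReal.comp hf.norm
    exact (((m1.pow_const _).mul (Complex.measurable_log.comp m1)).mul_const _).aestronglyMeasurable
  · filter_upwards [h0] with p hp s hs
    have ht : 0 < ‖f p‖ := norm_pos_iff.2 hp
    by_cases hHp : H p = 0
    · simp [hHp]
    · have hs' : |s.re - s₀.re| < ε := by
        have h1 : ‖s - s₀‖ < ε := by simpa [dist_eq_norm] using hs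
        have h2 := Complex.abs_re_le_norm (s - s₀)
        simp only [Complex.sub_re] at h2
        linarith
      rw [abs_lt] at hs'
      have hre : s₀.re = σ + 2 * ε := by rw [hε]; ring
      rw [norm_mul, norm_mul, norm_mul, Complex.norm_cpow_eq_rpow_re_of_pos ht]
      have e1 : (2 * s).re = 2 * σ + 2 * (s.re - σ) := by simp; ring
      rw [e1, Real.rpow_add ht]
      have e2 : ‖Complex.log ((‖f p‖ : ℝ) : ℂ)‖ = |Real.log ‖f p‖| := by
        rw [← Complex.ofReal_log ht.le, Complex.norm_real, Real.norm_eq_abs]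
      rw [e2]
      have := log_rpow_bound (u := 2 * (s.re - σ)) ht (hb p hHp) hR hε0 (by linarith)
        (by linarith)
      have e3 : ‖(2 : ℂ)‖ = 2 := by simp
      rw [e3]
      calc ‖f p‖ ^ (2 * σ) * ‖f p‖ ^ (2 * (s.re - σ)) * |Real.log ‖f p‖| * 2 * ‖H p‖
          = (2 * (|Real.log ‖f p‖| * ‖f p‖ ^ (2 * (s.re - σ)))) *
              (‖f p‖ ^ (2 * σ) * ‖H p‖) := by ring
        _ ≤ C * (‖f p‖ ^ (2 * σ) * ‖H p‖) := by
            apply mul_le_mul_of_nonneg_right _ (by positivity)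
            rw [hC]; linarith
  · filter_upwards [h0] with p hp s hs
    have ht : ((‖f p‖ : ℝ) : ℂ) ≠ 0 := by
      simpa using hp
    have h1 : HasDerivAt (fun s : ℂ => 2 * s) 2 s := by
      simpa using (hasDerivAt_id s).const_mul (2 : ℂ)
    have h2 := (h1.const_cpow (c := ((‖f p‖ : ℝ) : ℂ)) (Or.inl ht)).mul_const (H p)
    exact h2

end Pool.Agent.helper89.ArchZeta
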