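import Pool.Agent.helper89.ArchZeta.Bound
import Pool.Agent.helper89.ArchZeta.Param

open MeasureTheory Complex Set Filter Topology
open scoped ContDiff ComplexConjugate

namespace Pool.Agent.helper89.ArchZeta

/-- the polynomial `x (x-z) z y^2 (x-y)^4` as a function -/
noncomputable def ff (p : E3) : ℂ := lx p * lxz p * lz p * ly p ^ 2 * lxy p ^ 4

theorem norm_ff (p : E3) :
    ‖ff p‖ = ‖lx p‖ * ‖lxz p‖ * ‖lz p‖ * ‖ly p‖ ^ 2 * ‖lxy p‖ ^ 4 := by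
  unfold ff; simp

theorem continuous_ff : Continuous ff := by
  unfold ff
  fun_prop

theorem ae_ne_zero (l : E3 →L[ℂ] ℂ) (hl : l ≠ 0) : ∀ᵐ p : E3, l p ≠ 0 := by
  have h1 : (LinearMap.ker ((l : E3 →ₗ[ℂ] ℂ).restrictScalars ℝ)) ≠ ⊤ := by
    intro h
    apply hl
    ext p
    have : p ∈ LinearMap.ker ((l : E3 →ₗ[ℂ] ℂ).restrictScalars ℝ) := by rw [h]; trivial
    simpa using this
  have h2 := Measure.addHaar_submodule (volume : Measure E3) _ h1
  rw [ae_iff]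
  convert h2 using 2
  ext p
  simp

theorem lx_ne : lx ≠ 0 := fun h => by
  have := DFunLike.congr_fun h ex; simp at this
theorem ly_ne : ly ≠ 0 := fun h => by
  have := DFunLike.congr_fun h ey; simp at this
theorem lz_ne : lz ≠ 0 := fun h => by
  have := DFunLike.congr_fun h ez; simp at this
theorem lxy_ne : lxy ≠ 0 := fun h => by
  have := DFunLike.congr_fun h ex; simp [lxy_apply] at this
theorem lxz_ne : lxz ≠ 0 := fun h => by
  have := DFunLike.congr_fun h ex; simp [lxz_apply] at this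

theorem ae_ff_ne : ∀ᵐ p : E3, ff p ≠ 0 := by
  filter_upwards [ae_ne_zero lx lx_ne, ae_ne_zero ly ly_ne, ae_ne_zero lz lz_ne,
    ae_ne_zero lxy lxy_ne, ae_ne_zero lxz lxz_ne] with p h1 h2 h3 h4 h5
  unfold ff
  simp [h1, h2, h3, h4, h5]

/-- exponents -/
noncomputable def qq : Fin 3 → ℝ := ![39/20, 39/20, 17/10]

theorem qq_lt (i : Fin 3) : qq i < 2 := by
  fin_cases i <;> simp [qq] <;> norm_num

/-- product of three truncated powers -/
noncomputable def B3 (R : ℝ) (a b c : E3 →L[ℂ] ℂ) (p : E3) : ℝ :=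
  ∏ i, hh (qq i) R ((![a, b, c] : Fin 3 → (E3 →L[ℂ] ℂ)) i p)

theorem B3_nonneg (R : ℝ) (a b c : E3 →L[ℂ] ℂ) (p : E3) : 0 ≤ B3 R a b c p :=
  Finset.prod_nonneg fun _ _ => hh_nonneg _ _ _

theorem B3_eq {R : ℝ} {a b c : E3 →L[ℂ] ℂ} {p : E3} (ha : ‖a p‖ < R) (hb : ‖b p‖ < R)
    (hc : ‖c p‖ < R) :
    B3 R a b c p = (‖a p‖ * ‖b p‖) ^ (-(39/20) : ℝ) * ‖c p‖ ^ (-(17/10) : ℝ) := by
  unfold B3
  rw [Fin.prod_univ_three]
  simp only [qq, Matrix.cons_val_zero, Matrix.cons_val_one, Matrix.cons_val]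
  rw [hh_of_lt ha, hh_of_lt hb, hh_of_lt hc, Real.mul_rpow (norm_nonneg _) (norm_nonneg _)]

theorem integrable_B3 {R : ℝ} (hR : 0 < R) {a b c : E3 →L[ℂ] ℂ}
    (h : ∀ p : E3, a p = 0 → b p = 0 → c p = 0 → p = 0) : Integrable (B3 R a b c) := by
  apply integrable_prod_lin _ _ qq_lt hR
  intro z hz
  exact h z (by simpa using hz 0) (by simpa using hz 1) (by simpa using hz 2)

/-- the dominating function -/
noncomputable def BB (R : ℝ) (p : E3) : ℝ :=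
  B3 R lx ly lxz p + B3 R lx ly lz p + B3 R lx lxy lxz p + B3 R lx lxy lz p
    + B3 R ly lxy lxz p + B3 R ly lxy lz p

theorem eq_zero_of_coords {p : E3} (h0 : lx p = 0) (h1 : ly p = 0) (h2 : lz p = 0) : p = 0 := by
  funext i
  fin_cases i
  · exact h0
  · exact h1
  · exact h2

theorem integrable_BB {R : ℝ} (hR : 0 < R) : Integrable (BB R) := by
  unfold BB
  refine (((((integrable_B3 hR ?_).add (integrable_B3 hR ?_)).add (integrable_B3 hR ?_)).add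
    (integrable_B3 hR ?_)).add (integrable_B3 hR ?_)).add (integrable_B3 hR ?_)
  all_goals
    intro p h1 h2 h3
    try simp only [lxy_apply] at h1 h2 h3
    try simp only [lxz_apply] at h1 h2 h3
    apply eq_zero_of_coords <;> first | assumption | (simp_all)

theorem DD_le_BB {R : ℝ} {p : E3} (h1 : ‖lx p‖ < R) (h2 : ‖ly p‖ < R) (h3 : ‖lz p‖ < R)
    (h4 : ‖lxy p‖ < R) (h5 : ‖lxz p‖ < R) :
    DD ‖lx p‖ ‖ly p‖ ‖lxy p‖ ‖lxz p‖ ‖lz p‖ = BB R p := by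
  unfold BB DD
  rw [B3_eq h1 h2 h5, B3_eq h1 h2 h3, B3_eq h1 h4 h5, B3_eq h1 h4 h3, B3_eq h2 h4 h5,
    B3_eq h2 h4 h3]
  ring

theorem BB_nonneg (R : ℝ) (p : E3) : 0 ≤ BB R p := by
  unfold BB
  have h1 := B3_nonneg R lx ly lxz p
  have h2 := B3_nonneg R lx ly lz p
  have h3 := B3_nonneg R lx lxy lxz p
  have h4 := B3_nonneg R lx lxy lz p
  have h5 := B3_nonneg R ly lxy lxz p
  have h6 := B3_nonneg R ly lxy lz p
  linarith

/-- radius controlling everything on the support of a compactly supported function -/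
theorem exists_radius {ψ : E3 → ℂ} (hc : HasCompactSupport ψ) :
    ∃ R : ℝ, 1 ≤ R ∧ ∀ p, ψ p ≠ 0 → ‖lx p‖ < R ∧ ‖ly p‖ < R ∧ ‖lz p‖ < R ∧ ‖lxy p‖ < R ∧
      ‖lxz p‖ < R := by
  obtain ⟨r, hr⟩ := hc.isCompact.isBounded.subset_closedBall (0 : E3)
  refine ⟨2 * |r| + 1, by linarith [abs_nonneg r], fun p hp => ?_⟩
  have h1 : ‖p‖ ≤ r := by
    have := hr (subset_tsupport ψ hp)
    simpa using this
  have h2 : ‖lx p‖ ≤ r := (norm_le_pi_norm p 0).trans h1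
  have h3 : ‖ly p‖ ≤ r := (norm_le_pi_norm p 1).trans h1
  have h4 : ‖lz p‖ ≤ r := (norm_le_pi_norm p 2).trans h1
  have h5 : ‖lxy p‖ ≤ r + r := by
    rw [lxy_apply]; exact (norm_sub_le _ _).trans (add_le_add h2 h3)
  have h6 : ‖lxz p‖ ≤ r + r := by
    rw [lxz_apply]; exact (norm_sub_le _ _).trans (add_le_add h2 h4)
  have h7 := le_abs_self r
  have h8 := abs_nonneg r
  exact ⟨by linarith, by linarith, by linarith, by linarith, by linarith⟩

theorem norm_ff_le {R : ℝ} {p : E3} (h1 : ‖lx p‖ < R) (h2 : ‖ly p‖ < R)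
    (h3 : ‖lz p‖ < R) (h4 : ‖lxy p‖ < R) (h5 : ‖lxz p‖ < R) : ‖ff p‖ ≤ R ^ 9 := by
  rw [norm_ff]
  have hR0 : 0 ≤ R := (norm_nonneg _).trans h1.le
  calc ‖lx p‖ * ‖lxz p‖ * ‖lz p‖ * ‖ly p‖ ^ 2 * ‖lxy p‖ ^ 4
      ≤ R * R * R * R ^ 2 * R ^ 4 := by gcongr
    _ = R ^ 9 := by ring

/-- the basic integrability statement at the edge exponent -/
theorem integrable_edge {m ψ : E3 → ℂ} (hm : Measurable m) (hψ : Continuous ψ)
    (hc : HasCompactSupport ψ)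
    (hb : ∀ R : ℝ, 1 ≤ R → ∀ p : E3, 0 < ‖lx p‖ → 0 < ‖ly p‖ → 0 < ‖lz p‖ → 0 < ‖lxy p‖ →
      0 < ‖lxz p‖ → ‖lx p‖ < R → ‖ly p‖ < R → ‖lz p‖ < R → ‖lxy p‖ < R → ‖lxz p‖ < R →
      ‖ff p‖ ^ (-(7/10) : ℝ) * ‖m p‖ ≤ R * DD ‖lx p‖ ‖ly p‖ ‖lxy p‖ ‖lxz p‖ ‖lz p‖) :
    Integrable (fun p => ‖ff p‖ ^ (2 * (-(7/20)) : ℝ) * ‖m p * ψ p‖) := by
  obtain ⟨R, hR1, hR⟩ := exists_radius hc
  obtain ⟨C, hC⟩ := hψ.bounded_above_of_compact_support hc
  have hC0 : 0 ≤ C := (norm_nonneg _).trans (hC 0)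
  refine ((integrable_BB (R := R) (by linarith)).const_mul (C * R)).mono ?_ ?_
  · refine (Measurable.mul ?_ ?_).aestronglyMeasurable
    · exact continuous_ff.measurable.norm.pow_const _
    · exact (hm.mul hψ.measurable).norm
  · filter_upwards [ae_ne_zero lx lx_ne, ae_ne_zero ly ly_ne, ae_ne_zero lz lz_ne,
      ae_ne_zero lxy lxy_ne, ae_ne_zero lxz lxz_ne] with p h1 h2 h3 h4 h5
    have hBB := BB_nonneg R p
    rw [Real.norm_of_nonneg (by positivity), Real.norm_of_nonneg (by positivity)]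
    by_cases hp : ψ p = 0
    · rw [hp]; simp; positivity
    · obtain ⟨g1, g2, g3, g4, g5⟩ := hR p hp
      have key := hb R hR1 p (norm_pos_iff.2 h1) (norm_pos_iff.2 h2) (norm_pos_iff.2 h3)
        (norm_pos_iff.2 h4) (norm_pos_iff.2 h5) g1 g2 g3 g4 g5
      rw [DD_le_BB g1 g2 g3 g4 g5] at key
      have e : (2 * (-(7/20)) : ℝ) = -(7/10) := by norm_num
      rw [e, norm_mul]
      calc ‖ff p‖ ^ (-(7/10) : ℝ) * (‖m p‖ * ‖ψ p‖)
          = (‖ff p‖ ^ (-(7/10) : ℝ) * ‖m p‖) * ‖ψ p‖ := by ring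
        _ ≤ (R * BB R p) * C := mul_le_mul key (hC p) (norm_nonneg _) (by positivity)
        _ = C * R * BB R p := by ring

/-- the analytic function attached to a multiplier `m` and test function `ψ` -/
noncomputable def U (m ψ : E3 → ℂ) (s : ℂ) : ℂ :=
  ∫ p, ((‖ff p‖ : ℝ) : ℂ) ^ (2 * s) * (m p * ψ p)

theorem analytic_U {m ψ : E3 → ℂ} (hm : Measurable m) (hψ : Continuous ψ)
    (hc : HasCompactSupport ψ)
    (hb : ∀ R : ℝ, 1 ≤ R → ∀ p : E3, 0 < ‖lx p‖ → 0 < ‖ly p‖ → 0 < ‖lz p‖ → 0 < ‖lxy p‖ →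
      0 < ‖lxz p‖ → ‖lx p‖ < R → ‖ly p‖ < R → ‖lz p‖ < R → ‖lxy p‖ < R → ‖lxz p‖ < R →
      ‖ff p‖ ^ (-(7/10) : ℝ) * ‖m p‖ ≤ R * DD ‖lx p‖ ‖ly p‖ ‖lxy p‖ ‖lxz p‖ ‖lz p‖) :
    AnalyticOnNhd ℂ (U m ψ) {s | -(7/20) < s.re} := by
  obtain ⟨R, hR1, hR⟩ := exists_radius hc
  refine analytic_param (R := R ^ 9) (one_le_pow₀ hR1) continuous_ff.measurable
    (hm.mul hψ.measurable).aestronglyMeasurable (integrable_edge hm hψ hc hb) ?_ ae_ff_ne
  intro p hp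
  obtain ⟨g1, g2, g3, g4, g5⟩ := hR p (right_ne_zero_of_mul hp)
  exact norm_ff_le g1 g2 g3 g4 g5

theorem analytic_U_pos {ψ : E3 → ℂ} (hψ : Continuous ψ) (hc : HasCompactSupport ψ) :
    AnalyticOnNhd ℂ (U (fun _ => 1) ψ) {s | 0 < s.re} := by
  obtain ⟨R, hR1, hR⟩ := exists_radius hc
  refine analytic_param (R := R ^ 9) (one_le_pow₀ hR1) continuous_ff.measurable
    (measurable_const.mul hψ.measurable).aestronglyMeasurable ?_ ?_ ae_ff_ne
  · simp only [mul_zero, Real.rpow_zero, one_mul]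
    exact (hψ.integrable_of_hasCompactSupport hc).norm
  · intro p hp
    obtain ⟨g1, g2, g3, g4, g5⟩ := hR p (right_ne_zero_of_mul hp)
    exact norm_ff_le g1 g2 g3 g4 g5

/-- multiplier `(x-y) y / x` -/
noncomputable def m1 (p : E3) : ℂ := lxy p * ly p / lx p
/-- multiplier `x-y` -/
noncomputable def m2 (p : E3) : ℂ := lxy p
/-- multiplier `(x-y) z / (x-z)` -/
noncomputable def m5 (p : E3) : ℂ := lxy p * lz p / lxz p

theorem analytic_U1 {ψ : E3 → ℂ} (hψ : Continuous ψ) (hc : HasCompactSupport ψ) :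
    AnalyticOnNhd ℂ (U m1 ψ) {s | -(7/20) < s.re} := by
  apply analytic_U _ hψ hc
  · intro R hR p h1 h2 h3 h4 h5 g1 g2 g3 g4 g5
    rw [norm_ff]
    unfold m1
    rw [norm_div, norm_mul]
    exact type1_bound h1 h2 h4 h5 h3 g5 g3 hR
  · unfold m1
    exact ((lxy.continuous.mul ly.continuous).measurable).div lx.continuous.measurable

theorem analytic_U2 {ψ : E3 → ℂ} (hψ : Continuous ψ) (hc : HasCompactSupport ψ) :
    AnalyticOnNhd ℂ (U m2 ψ) {s | -(7/20) < s.re} := by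
  apply analytic_U _ hψ hc
  · intro R hR p h1 h2 h3 h4 h5 g1 g2 g3 g4 g5
    rw [norm_ff]
    unfold m2
    exact type2_bound h1 h2 h4 h5 h3 g5 g3 hR
  · unfold m2
    exact lxy.continuous.measurable

theorem analytic_U5 {ψ : E3 → ℂ} (hψ : Continuous ψ) (hc : HasCompactSupport ψ) :
    AnalyticOnNhd ℂ (U m5 ψ) {s | -(7/20) < s.re} := by
  apply analytic_U _ hψ hc
  · intro R hR p h1 h2 h3 h4 h5 g1 g2 g3 g4 g5
    rw [norm_ff]
    unfold m5
    rw [norm_div, norm_mul]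
    exact type5_bound h1 h2 h4 h5 h3 g3 hR
  · unfold m5
    exact ((lxy.continuous.mul lz.continuous).measurable).div lxz.continuous.measurable

end Pool.Agent.helper89.ArchZeta
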