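import Pool.Agent.helper89.ArchZeta.Main1

open MeasureTheory Complex Set Filter Topology
open scoped ContDiff ComplexConjugate

namespace Pool.Agent.helper89.ArchZeta

theorem M_eq_div (l : E3 →L[ℂ] ℂ) {t : ℝ} (ht : t ≠ 0) (p : E3) : N l t p / l p = M l t p := by
  rcases eq_or_ne (l p) 0 with h | h
  · rw [h, div_zero]; unfold M; rw [h]; simp
  · rw [← mul_M l ht p]; field_simp

theorem W_eq (t : ℝ) (p : E3) :
    ((‖ff p‖ : ℝ) : ℂ) ^ (2 * (t : ℂ)) = W t p := by
  have h1 : (2 * (t : ℂ)) = ((2 * t : ℝ) : ℂ) := by push_cast; ring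
  rw [h1, ← Complex.ofReal_cpow (norm_nonneg _)]
  have h2 : ‖ff p‖ ^ (2 * t) = (‖ff p‖ ^ 2) ^ t := by
    rw [← Real.rpow_natCast_mul (norm_nonneg _)]; norm_num
  have h3 : ‖ff p‖ ^ 2 = normSq (lx p) * normSq (lxz p) * normSq (lz p) * normSq (ly p) ^ 2 *
      normSq (lxy p) ^ 4 := by
    rw [norm_ff]
    simp only [normSq_eq_norm_sq]
    ring
  rw [h2, h3]
  unfold W N
  have n1 := normSq_nonneg (lx p)
  have n2 := normSq_nonneg (lxz p)
  have n3 := normSq_nonneg (lz p)
  have n4 := normSq_nonneg (ly p)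
  have n5 := normSq_nonneg (lxy p)
  generalize normSq (lx p) = a1 at *
  generalize normSq (lxz p) = a2 at *
  generalize normSq (lz p) = a3 at *
  generalize normSq (ly p) = a4 at *
  generalize normSq (lxy p) = a5 at *
  rw [Real.mul_rpow (by positivity) (by positivity), Real.mul_rpow (by positivity) (by positivity),
    Real.mul_rpow (by positivity) (by positivity), Real.mul_rpow (by positivity) (by positivity),
    ← Real.rpow_natCast_mul n4, ← Real.rpow_natCast_mul n5]
  push_cast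
  rfl

theorem continuous_W {t : ℝ} (ht : 2 ≤ t) : Continuous (W t) := by
  unfold W
  exact ((((contDiff_N lx (by linarith)).continuous.mul
    (contDiff_N lxz (by linarith)).continuous).mul
    (contDiff_N lz (by linarith)).continuous).mul (contDiff_N ly (by linarith)).continuous).mul
    (contDiff_N lxy (by linarith)).continuous

theorem continuous_W5 {t : ℝ} (ht : 2 ≤ t) : Continuous (W5 t) := by
  unfold W5
  exact (((((contDiff_N lx (by linarith)).continuous.mul
    (contDiff_M lxz (by linarith)).continuous).mul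
    (contDiff_N lz (by linarith)).continuous).mul (contDiff_N ly (by linarith)).continuous).mul
    (contDiff_N lxy (by linarith)).continuous).mul lxy.continuous

theorem U_one_eq (t : ℝ) (ψ : E3 → ℂ) : U (fun _ => 1) ψ t = ∫ p, W t p * ψ p := by
  unfold U
  congr 1; funext p
  rw [W_eq, one_mul]

theorem U_m1_eq {t : ℝ} (ht : 2 ≤ t) (ψ : E3 → ℂ) : U m1 ψ t = ∫ p, ly p * W0 t p * ψ p := by
  unfold U
  congr 1; funext p
  rw [W_eq]
  unfold W W0 m1
  rw [← M_eq_div lx (by linarith : t ≠ 0)]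
  ring

theorem U_m2_eq {t : ℝ} (ht : 2 ≤ t) (ψ : E3 → ℂ) : U m2 ψ t = ∫ p, lx p * W0 t p * ψ p := by
  unfold U
  congr 1; funext p
  rw [W_eq]
  unfold W W0 m2
  rw [← mul_M lx (by linarith : t ≠ 0)]
  ring

theorem U_m5_eq {t : ℝ} (ht : 2 ≤ t) (ψ : E3 → ℂ) : U m5 ψ t = ∫ p, lz p * W5 t p * ψ p := by
  unfold U
  congr 1; funext p
  rw [W_eq]
  unfold W W5 m5
  rw [← M_eq_div lxz (by linarith : t ≠ 0)]
  ring

theorem hasCompactSupport_wd {φ : E3 → ℂ} (hc : HasCompactSupport φ) (v : E3) :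
    HasCompactSupport (wd v φ) := by
  have := hc.fderiv (𝕜 := ℝ)
  exact this.comp_left (g := fun L : E3 →L[ℝ] ℂ => dz L v) (by simp [dz])

theorem contDiff_wd {φ : E3 → ℂ} (hφ : ContDiff ℝ ∞ φ) (v : E3) : ContDiff ℝ ∞ (wd v φ) := by
  have h1 : ContDiff ℝ ∞ (fderiv ℝ φ) := hφ.fderiv_right (by simp)
  unfold wd dz
  exact (((h1.clm_apply contDiff_const).sub
    (contDiff_const.mul (h1.clm_apply contDiff_const))).div_const _)

theorem J1 {t : ℝ} (ht : 2 ≤ t) {φ : E3 → ℂ} (hφ : ContDiff ℝ 1 φ) (hc : HasCompactSupport φ) :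
    (1 + 4 * t) * U (fun _ => 1) φ t = (2 + 6 * t) * (∫ p, W0 t p * φ p) + U m1 (wd ey φ) t := by
  have h := wd_ibp ey (w := fun p => ly p * W0 t p) ((contDiff_lin ly).mul (contDiff_W0 ht)) hφ hc
  simp only [wd_id1 ht] at h
  have e : (fun p => ((2 + 6 * (t : ℂ)) * W0 t p - (1 + 4 * (t : ℂ)) * W t p) * φ p) =
      fun p => (2 + 6 * (t : ℂ)) * (W0 t p * φ p) - (1 + 4 * (t : ℂ)) * (W t p * φ p) := by
    funext p; ring
  rw [e, integral_sub, integral_const_mul, integral_const_mul] at h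
  · rw [U_one_eq, U_m1_eq ht]
    linear_combination -h
  · exact ((((contDiff_W0 ht).continuous).mul hφ.continuous).integrable_of_hasCompactSupport
      hc.mul_left).const_mul _
  · exact (((continuous_W ht).mul hφ.continuous).integrable_of_hasCompactSupport
      hc.mul_left).const_mul _

theorem integrable_wd {t : ℝ} (ht : 2 ≤ t) (l : E3 →L[ℂ] ℂ) (v : E3) {φ : E3 → ℂ}
    (hφ : ContDiff ℝ 1 φ) (hc : HasCompactSupport φ) :
    Integrable (fun p => wd v (fun p => l p * W0 t p) p * φ p) := by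
  have hw : ContDiff ℝ 1 (fun p => l p * W0 t p) := (contDiff_lin l).mul (contDiff_W0 ht)
  have c1 : Continuous (wd v (fun p => l p * W0 t p)) := by
    unfold wd dz
    have := hw.continuous_fderiv (by norm_num)
    fun_prop
  exact (c1.mul hφ.continuous).integrable_of_hasCompactSupport hc.mul_left

theorem J2 {t : ℝ} (ht : 2 ≤ t) {φ : E3 → ℂ} (hφ : ContDiff ℝ 1 φ) (hc : HasCompactSupport φ) :
    (3 + 9 * t) * (∫ p, W0 t p * φ p) =
      - (U m2 (wd ex φ) t + U m1 (wd ey φ) t + ∫ p, lz p * W0 t p * wd ez φ p) := by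
  have hx := wd_ibp ex (w := fun p => lx p * W0 t p) ((contDiff_lin lx).mul (contDiff_W0 ht)) hφ hc
  have hy := wd_ibp ey (w := fun p => ly p * W0 t p) ((contDiff_lin ly).mul (contDiff_W0 ht)) hφ hc
  have hz := wd_ibp ez (w := fun p => lz p * W0 t p) ((contDiff_lin lz).mul (contDiff_W0 ht)) hφ hc
  have ix := integrable_wd ht lx ex hφ hc
  have iy := integrable_wd ht ly ey hφ hc
  have iz := integrable_wd ht lz ez hφ hc
  have e : (fun p => (3 + 9 * (t : ℂ)) * (W0 t p * φ p)) = fun p =>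
      (wd ex (fun p => lx p * W0 t p) p * φ p + wd ey (fun p => ly p * W0 t p) p * φ p) +
      wd ez (fun p => lz p * W0 t p) p * φ p := by
    funext p
    have := wd_id2 ht p
    linear_combination (-φ p) * this
  have e2 := integral_add (ix.add iy) iz
  simp only [Pi.add_apply] at e2
  rw [← integral_const_mul, e, e2, integral_add ix iy, hx, hy, hz,
    U_m1_eq ht, U_m2_eq ht]
  ring

theorem J3 {t : ℝ} (ht : 2 ≤ t) {χ : E3 → ℂ} (hχ : ContDiff ℝ 1 χ) (hc : HasCompactSupport χ) :
    (2 + 7 * t) * (∫ p, lz p * W0 t p * χ p) + t * U m5 χ t =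
      - (U m2 (fun p => lz p * wd ex χ p) t + U m1 (fun p => lz p * wd ey χ p) t) := by
  have hχ' : ContDiff ℝ 1 (fun p => lz p * χ p) := (contDiff_lin lz).mul hχ
  have hc' : HasCompactSupport (fun p => lz p * χ p) := hc.mul_left
  have hx := wd_ibp ex (w := fun p => lx p * W0 t p) ((contDiff_lin lx).mul (contDiff_W0 ht))
    hχ' hc'
  have hy := wd_ibp ey (w := fun p => ly p * W0 t p) ((contDiff_lin ly).mul (contDiff_W0 ht))
    hχ' hc'
  have ix := integrable_wd ht lx ex hχ' hc'
  have iy := integrable_wd ht ly ey hχ' hc'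
  have dx : ∀ p, wd ex (fun p => lz p * χ p) p = lz p * wd ex χ p := by
    intro p
    rw [wd_mul_lin (hχ.differentiable (by norm_num) p)]; simp
  have dy : ∀ p, wd ey (fun p => lz p * χ p) p = lz p * wd ey χ p := by
    intro p
    rw [wd_mul_lin (hχ.differentiable (by norm_num) p)]; simp
  simp only [dx] at hx
  simp only [dy] at hy
  have e : (fun p => (2 + 7 * (t : ℂ)) * (lz p * W0 t p * χ p) + (t : ℂ) * (lz p * W5 t p * χ p))
      = fun p => wd ex (fun p => lx p * W0 t p) p * (lz p * χ p) +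
        wd ey (fun p => ly p * W0 t p) p * (lz p * χ p) := by
    funext p
    have := wd_id3 ht p
    linear_combination (-(lz p * χ p)) * this
  have i0 : Integrable (fun p => lz p * W0 t p * χ p) :=
    ((lz.continuous.mul (contDiff_W0 ht).continuous).mul
      hχ.continuous).integrable_of_hasCompactSupport hc.mul_left
  have i5 : Integrable (fun p => lz p * W5 t p * χ p) :=
    ((lz.continuous.mul (continuous_W5 ht)).mul
      hχ.continuous).integrable_of_hasCompactSupport hc.mul_left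
  rw [U_m5_eq ht, ← integral_const_mul, ← integral_const_mul, ← integral_add (i0.const_mul _)
    (i5.const_mul _), e, integral_add ix iy, hx, hy, U_m1_eq ht, U_m2_eq ht]
  ring

/-- the numerator of the continuation -/
noncomputable def HH (φ : E3 → ℂ) (s : ℂ) : ℂ :=
  (2 + 7 * s) * (U m1 (wd ey φ) s - 2 * U m2 (wd ex φ) s) +
    2 * (s * U m5 (wd ez φ) s + U m2 (fun p => lz p * wd ex (wd ez φ) p) s +
      U m1 (fun p => lz p * wd ey (wd ez φ) p) s)

theorem main_real {t : ℝ} (ht : 2 ≤ t) {φ : E3 → ℂ} (hφ : ContDiff ℝ ∞ φ)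
    (hc : HasCompactSupport φ) :
    3 * (1 + 4 * (t : ℂ)) * (2 + 7 * (t : ℂ)) * U (fun _ => 1) φ t = HH φ t := by
  have h1 := J1 ht (hφ.of_le (by simp)) hc
  have h2 := J2 ht (hφ.of_le (by simp)) hc
  have h3 := J3 ht ((contDiff_wd hφ ez).of_le (by simp)) (hasCompactSupport_wd hc ez)
  unfold HH
  linear_combination (3 * (2 + 7 * (t : ℂ))) * h1 + (2 * (2 + 7 * (t : ℂ))) * h2 - 2 * h3

theorem analytic_HH {φ : E3 → ℂ} (hφ : ContDiff ℝ ∞ φ) (hc : HasCompactSupport φ) :
    AnalyticOnNhd ℂ (HH φ) {s | -(7/20) < s.re} := by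
  have a1 := analytic_U1 (contDiff_wd hφ ey).continuous (hasCompactSupport_wd hc ey)
  have a2 := analytic_U2 (contDiff_wd hφ ex).continuous (hasCompactSupport_wd hc ex)
  have a3 := analytic_U5 (contDiff_wd hφ ez).continuous (hasCompactSupport_wd hc ez)
  have a4 := analytic_U2 (ψ := fun p => lz p * wd ex (wd ez φ) p)
    (lz.continuous.mul (contDiff_wd (contDiff_wd hφ ez) ex).continuous)
    (hasCompactSupport_wd (hasCompactSupport_wd hc ez) ex).mul_left
  have a5 := analytic_U1 (ψ := fun p => lz p * wd ey (wd ez φ) p)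
    (lz.continuous.mul (contDiff_wd (contDiff_wd hφ ez) ey).continuous)
    (hasCompactSupport_wd (hasCompactSupport_wd hc ez) ey).mul_left
  intro s hs
  have b1 := a1 s hs
  have b2 := a2 s hs
  have b3 := a3 s hs
  have b4 := a4 s hs
  have b5 := a5 s hs
  unfold HH
  fun_prop

theorem main_eq {φ : E3 → ℂ} (hφ : ContDiff ℝ ∞ φ) (hc : HasCompactSupport φ) {s : ℂ}
    (hs : 0 < s.re) :
    3 * (1 + 4 * s) * (2 + 7 * s) * U (fun _ => 1) φ s = HH φ s := by
  have a1 : AnalyticOnNhd ℂ (fun s => 3 * (1 + 4 * s) * (2 + 7 * s) * U (fun _ => 1) φ s)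
      {s | 0 < s.re} := by
    intro s hs
    have := analytic_U_pos hφ.continuous hc s hs
    fun_prop
  have a2 : AnalyticOnNhd ℂ (HH φ) {s | 0 < s.re} := by
    refine (analytic_HH hφ hc).mono ?_
    intro s hs
    simp only [Set.mem_ofPred_eq] at hs ⊢
    linarith
  have hpre : IsPreconnected {s : ℂ | 0 < s.re} := (convex_halfSpace_re_gt 0).isPreconnected
  have hfreq : ∃ᶠ z in 𝓝[≠] (3 : ℂ),
      3 * (1 + 4 * z) * (2 + 7 * z) * U (fun _ => 1) φ z = HH φ z := by
    have hu : Tendsto (fun n : ℕ => ((3 + 1 / ((n : ℝ) + 1) : ℝ) : ℂ)) atTop (𝓝[≠] (3 : ℂ)) := by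
      rw [tendsto_nhdsWithin_iff]
      constructor
      · have h1 : Tendsto (fun n : ℕ => (3 + 1 / ((n : ℝ) + 1) : ℝ)) atTop (𝓝 (3 + 0)) :=
          tendsto_const_nhds.add tendsto_one_div_add_atTop_nhds_zero_nat
        have h2 := (Complex.continuous_ofReal.tendsto (3 + 0)).comp h1
        simpa [Function.comp_def] using h2
      · refine Eventually.of_forall fun n => ?_
        simp only [mem_compl_iff, mem_singleton_iff]
        intro h
        have h3 : ((3 + 1 / ((n : ℝ) + 1) : ℝ) : ℂ) = ((3 : ℝ) : ℂ) := by rw [h]; simp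
        have h4 := Complex.ofReal_injective h3
        have h5 : 0 < 1 / ((n : ℝ) + 1) := by positivity
        linarith
    refine hu.frequently (Frequently.of_forall fun n => ?_)
    have h6 : (2 : ℝ) ≤ 3 + 1 / ((n : ℝ) + 1) := by
      have h5 : 0 < 1 / ((n : ℝ) + 1) := by positivity
      linarith
    exact main_real h6 hφ hc
  have := a1.eqOn_of_preconnected_of_frequently_eq a2 hpre (z₀ := 3) (by simp) hfreq
  exact this hs

end Pool.Agent.helper89.ArchZeta
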