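import Mathlib

open MeasureTheory Complex Set Filter Topology
open scoped ContDiff ComplexConjugate

namespace Pool.Agent.helper89.ArchZeta

/-- Coordinate space. -/
abbrev E3 : Type := Fin 3 → ℂ

/-- The complex-linear part of a real-linear functional, evaluated at a vector. -/
noncomputable def dz (L : E3 →L[ℝ] ℂ) (v : E3) : ℂ := (L v - I * L (I • v)) / 2

/-- The Wirtinger derivative of `f` at `x` in direction `v`. -/
noncomputable def wd (v : E3) (f : E3 → ℂ) (x : E3) : ℂ := dz (fderiv ℝ f x) v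

/-- `f` is real-differentiable at `x` with Wirtinger derivative `D`. -/
def HasW (f : E3 → ℂ) (D : E3 → ℂ) (x : E3) : Prop :=
  DifferentiableAt ℝ f x ∧ ∀ v, wd v f x = D v

theorem HasW.mul {f g D D' : E3 → ℂ} {x : E3} (hf : HasW f D x) (hg : HasW g D' x) :
    HasW (fun z => f z * g z) (fun v => D v * g x + f x * D' v) x := by
  refine ⟨hf.1.mul hg.1, fun v => ?_⟩
  have h1 := hf.2 v
  have h2 := hg.2 v
  simp only [← h1, ← h2]
  unfold wd dz
  rw [fderiv_fun_mul hf.1 hg.1]
  simp
  ring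

theorem hasW_clm (l : E3 →L[ℂ] ℂ) (x : E3) : HasW (fun z => l z) (fun v => l v) x := by
  have h : HasFDerivAt (fun z => l z) (l.restrictScalars ℝ) x := by
    exact (l.restrictScalars ℝ).hasFDerivAt
  refine ⟨h.differentiableAt, fun v => ?_⟩
  unfold wd dz
  rw [h.fderiv]
  simp
  linear_combination (1/2 : ℂ) * (-(l v)) * Complex.I_sq

theorem hasW_conj (l : E3 →L[ℂ] ℂ) (x : E3) : HasW (fun z => conj (l z)) (fun _ => 0) x := by
  have h : HasFDerivAt (fun z => conj (l z))
      ((Complex.conjCLE : ℂ →L[ℝ] ℂ).comp (l.restrictScalars ℝ)) x := by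
    exact ((Complex.conjCLE : ℂ →L[ℝ] ℂ).comp (l.restrictScalars ℝ)).hasFDerivAt
  refine ⟨h.differentiableAt, fun v => ?_⟩
  unfold wd dz
  rw [h.fderiv]
  simp
  linear_combination (conj (l v)) * Complex.I_sq

/-- `|l|^(2p)` -/
noncomputable def N (l : E3 →L[ℂ] ℂ) (p : ℝ) (z : E3) : ℂ := ((normSq (l z) ^ p : ℝ) : ℂ)

/-- `|l|^(2p) / l` -/
noncomputable def M (l : E3 →L[ℂ] ℂ) (p : ℝ) (z : E3) : ℂ := conj (l z) * N l (p - 1) z

theorem mul_M (l : E3 →L[ℂ] ℂ) {p : ℝ} (hp : p ≠ 0) (z : E3) : l z * M l p z = N l p z := by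
  unfold M N
  rw [← mul_assoc, Complex.mul_conj, ← ofReal_mul]
  congr 1
  rcases eq_or_ne (normSq (l z)) 0 with h | h
  · rw [h, Real.zero_rpow hp]; simp
  · have h' : 0 < normSq (l z) := lt_of_le_of_ne (normSq_nonneg _) (Ne.symm h)
    rw [Real.rpow_sub h', Real.rpow_one]
    field_simp

theorem contDiff_N (l : E3 →L[ℂ] ℂ) {p : ℝ} (hp : 1 ≤ p) : ContDiff ℝ 1 (N l p) := by
  unfold N
  have h1 : ContDiff ℝ 1 (fun z : E3 => normSq (l z)) := by
    have : (fun z : E3 => normSq (l z)) = fun z => (l z).re * (l z).re + (l z).im * (l z).im := by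
      funext z; rw [normSq_apply]
    rw [this]
    have hl : ContDiff ℝ 1 (fun z : E3 => l z) := (l.restrictScalars ℝ).contDiff
    have hre : ContDiff ℝ 1 (fun z : E3 => (l z).re) := Complex.reCLM.contDiff.comp hl
    have him : ContDiff ℝ 1 (fun z : E3 => (l z).im) := Complex.imCLM.contDiff.comp hl
    exact (hre.mul hre).add (him.mul him)
  have h2 : ContDiff ℝ 1 (fun t : ℝ => t ^ p) := by
    have := Real.contDiff_rpow_const_of_le (p := p) (n := 1) (by simpa using hp)
    simpa using this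
  exact Complex.ofRealCLM.contDiff.comp (h2.comp h1)

theorem hasW_N (l : E3 →L[ℂ] ℂ) {p : ℝ} (hp : 1 ≤ p) (x : E3) :
    HasW (N l p) (fun v => p * l v * M l p x) x := by
  refine ⟨(contDiff_N l hp).differentiable (by norm_num) x, fun v => ?_⟩
  have h1 : HasFDerivAt (fun z : E3 => l z) (l.restrictScalars ℝ) x :=
    (l.restrictScalars ℝ).hasFDerivAt
  have h2 : HasFDerivAt (fun z : E3 => (l z).re) (Complex.reCLM.comp (l.restrictScalars ℝ)) x :=
    (Complex.reCLM.comp (l.restrictScalars ℝ)).hasFDerivAt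
  have h3 : HasFDerivAt (fun z : E3 => (l z).im) (Complex.imCLM.comp (l.restrictScalars ℝ)) x :=
    (Complex.imCLM.comp (l.restrictScalars ℝ)).hasFDerivAt
  have h4 : HasFDerivAt (fun z : E3 => normSq (l z))
      (((l x).re • (Complex.reCLM.comp (l.restrictScalars ℝ)) +
        (l x).re • (Complex.reCLM.comp (l.restrictScalars ℝ))) +
       ((l x).im • (Complex.imCLM.comp (l.restrictScalars ℝ)) +
        (l x).im • (Complex.imCLM.comp (l.restrictScalars ℝ)))) x := by
    have e : (fun z : E3 => normSq (l z)) = fun z => (l z).re * (l z).re + (l z).im * (l z).im := by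
      funext z; rw [normSq_apply]
    rw [e]
    exact (h2.mul h2).add (h3.mul h3)
  have h5 := HasFDerivAt.rpow_const (p := p) h4 (Or.inr hp)
  have h6 := (Complex.ofRealCLM.hasFDerivAt (x := normSq (l x) ^ p)).comp x h5
  have h7 : HasFDerivAt (N l p) _ x := h6
  unfold wd dz
  rw [h7.fderiv]
  unfold M N
  simp
  apply Complex.ext <;> simp <;> ring

theorem contDiff_M (l : E3 →L[ℂ] ℂ) {p : ℝ} (hp : 2 ≤ p) : ContDiff ℝ 1 (M l p) := by
  unfold M
  have h1 : ContDiff ℝ 1 (fun z : E3 => conj (l z)) :=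
    ((Complex.conjCLE : ℂ →L[ℝ] ℂ).comp (l.restrictScalars ℝ)).contDiff
  exact h1.mul (contDiff_N l (by linarith))

/-- `|l|^(2p) / l^2` -/
noncomputable def M2 (l : E3 →L[ℂ] ℂ) (p : ℝ) (z : E3) : ℂ := conj (l z) * M l (p - 1) z

theorem mul_M2 (l : E3 →L[ℂ] ℂ) {p : ℝ} (hp : p ≠ 1) (z : E3) : l z * M2 l p z = M l p z := by
  unfold M2
  have := mul_M l (p := p - 1) (sub_ne_zero.2 hp) z
  unfold M at this ⊢
  linear_combination conj (l z) * this

theorem hasW_M (l : E3 →L[ℂ] ℂ) {p : ℝ} (hp : 2 ≤ p) (x : E3) :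
    HasW (M l p) (fun v => (p - 1) * l v * M2 l p x) x := by
  have h := (hasW_conj l x).mul (hasW_N l (p := p - 1) (by linarith) x)
  refine ⟨h.1, fun v => ?_⟩
  have := h.2 v
  change wd v (M l p) x = _ at this
  rw [this]
  unfold M2
  push_cast
  ring

theorem hasLineDeriv_ibp (v : E3) {w φ : E3 → ℂ} (hw : ContDiff ℝ 1 w) (hφ : ContDiff ℝ 1 φ)
    (hc : HasCompactSupport φ) :
    ∫ x, fderiv ℝ w x v * φ x = - ∫ x, w x * fderiv ℝ φ x v := by
  have hcφ' : HasCompactSupport (fun x => fderiv ℝ φ x v) := by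
    have := hc.fderiv (𝕜 := ℝ)
    exact this.comp_left (g := fun L : E3 →L[ℝ] ℂ => L v) (by simp)
  have cw' : Continuous (fun x => fderiv ℝ w x v) :=
    (hw.continuous_fderiv (by norm_num)).clm_apply continuous_const
  have cφ' : Continuous (fun x => fderiv ℝ φ x v) :=
    (hφ.continuous_fderiv (by norm_num)).clm_apply continuous_const
  have key := integral_bilinear_hasFDerivAt_right_eq_neg_left_of_integrable
    (μ := (volume : Measure E3)) (f := φ) (f' := fderiv ℝ φ) (g := w) (g' := fderiv ℝ w) (v := v)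
    (B := ContinuousLinearMap.mul ℝ ℂ) ?_ ?_ ?_ ?_ ?_
  · simp only [ContinuousLinearMap.mul_apply'] at key
    have e1 : ∫ x, fderiv ℝ w x v * φ x = ∫ x, φ x * fderiv ℝ w x v := by
      congr 1; funext x; ring
    have e2 : ∫ x, w x * fderiv ℝ φ x v = ∫ x, fderiv ℝ φ x v * w x := by
      congr 1; funext x; ring
    rw [e1, e2, key]
  · simp only [ContinuousLinearMap.mul_apply']
    exact (cφ'.mul hw.continuous).integrable_of_hasCompactSupport hcφ'.mul_right
  · simp only [ContinuousLinearMap.mul_apply']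
    exact (hφ.continuous.mul cw').integrable_of_hasCompactSupport hc.mul_right
  · simp only [ContinuousLinearMap.mul_apply']
    exact (hφ.continuous.mul hw.continuous).integrable_of_hasCompactSupport hc.mul_right
  · intro x _
    exact (hφ.differentiable (by norm_num) x).hasFDerivAt
  · intro x _
    exact (hw.differentiable (by norm_num) x).hasFDerivAt

theorem wd_ibp (v : E3) {w φ : E3 → ℂ} (hw : ContDiff ℝ 1 w) (hφ : ContDiff ℝ 1 φ)
    (hc : HasCompactSupport φ) :
    ∫ x, wd v w x * φ x = - ∫ x, w x * wd v φ x := by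
  have h1 := hasLineDeriv_ibp v hw hφ hc
  have h2 := hasLineDeriv_ibp (I • v) hw hφ hc
  have hc' : ∀ u : E3, HasCompactSupport (fun x => fderiv ℝ φ x u) := by
    intro u
    have := hc.fderiv (𝕜 := ℝ)
    exact this.comp_left (g := fun L : E3 →L[ℝ] ℂ => L u) (by simp)
  have cw' : ∀ u : E3, Continuous (fun x => fderiv ℝ w x u) := fun u =>
    (hw.continuous_fderiv (by norm_num)).clm_apply continuous_const
  have cφ' : ∀ u : E3, Continuous (fun x => fderiv ℝ φ x u) := fun u =>
    (hφ.continuous_fderiv (by norm_num)).clm_apply continuous_const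
  have i1 : ∀ u : E3, Integrable (fun x => fderiv ℝ w x u * φ x) := fun u =>
    ((cw' u).mul hφ.continuous).integrable_of_hasCompactSupport hc.mul_left
  have i2 : ∀ u : E3, Integrable (fun x => w x * fderiv ℝ φ x u) := fun u =>
    (hw.continuous.mul (cφ' u)).integrable_of_hasCompactSupport (hc' u).mul_left
  have e1 : (fun x => wd v w x * φ x) =
      fun x => (1/2 : ℂ) * (fderiv ℝ w x v * φ x) - (I/2) * (fderiv ℝ w x (I • v) * φ x) := by
    funext x; unfold wd dz; ring
  have e2 : (fun x => w x * wd v φ x) =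
      fun x => (1/2 : ℂ) * (w x * fderiv ℝ φ x v) - (I/2) * (w x * fderiv ℝ φ x (I • v)) := by
    funext x; unfold wd dz; ring
  rw [e1, e2, integral_sub ((i1 v).const_mul _) ((i1 (I • v)).const_mul _),
    integral_sub ((i2 v).const_mul _) ((i2 (I • v)).const_mul _),
    integral_const_mul, integral_const_mul, integral_const_mul, integral_const_mul, h1, h2]
  ring

end Pool.Agent.helper89.ArchZeta
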